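import Pool.Agent.R538.Dom3

/-!
# The misère domination game on paths and cycles (Question Q1)
-/

namespace Pool.Agent.Results.MP_56c280_lc.PathsAndCycles

open Pool.Agent.NPC Pool.Agent.R538.Dom

/-- The misère domination game on paths and cycles is solved: the player to move (Alice) wins on
the path with `n ≥ 1` vertices exactly when `n` is none of `1, 2, 5, 6` and not a number `≥ 10`
that is `2` modulo `4`, and on the cycle with `n ≥ 3` vertices exactly when `n = 4`, `n = 8`, or
`n ≥ 13` is `1` modulo `4`; and a polynomial-time algorithm decides the winner from the adjacency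
matrix of a graph that is a path or a cycle (with any numbering of its vertices). -/
theorem result :
    (∀ n : ℕ, 1 ≤ n → (Wins (SimpleGraph.pathGraph n) ∅ ↔
      n ≠ 1 ∧ n ≠ 2 ∧ n ≠ 5 ∧ n ≠ 6 ∧ ¬ (10 ≤ n ∧ n % 4 = 2))) ∧
    (∀ n : ℕ, 3 ≤ n → (Wins (SimpleGraph.cycleGraph n) ∅ ↔
      n = 4 ∨ n = 8 ∨ (13 ≤ n ∧ n % 4 = 1))) ∧
    ∃ F : List Bool → List Bool, PolyTime F ∧ ∀ (n : ℕ) (G : SimpleGraph (Fin n)),
      ((1 ≤ n ∧ Nonempty (G ≃g SimpleGraph.pathGraph n)) ∨
        (3 ≤ n ∧ Nonempty (G ≃g SimpleGraph.cycleGraph n))) →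
      (F (bits (Pool.Agent.H656R2.AK.adjMatrix G)) = [true] ↔ Wins G ∅) := by
  refine ⟨fun n hn => wins_path n hn, fun n hn => wins_cycle n hn,
    fun x => [match unbits (List (List Bool)) x with | none => false | some A => dec A], ?_, ?_⟩
  · refine polyTime_of_poly ((NPC.Poly.optCases (o := unbits (List (List Bool)))
      (g := fun _ => false) (h := fun _ A => dec A) poly_unbits
      (NPC.Poly.const false) (dec_poly.comp (NPC.Poly.snd NPC.Poly.id))).congr fun x => ?_)
    cases unbits (List (List Bool)) x <;> rfl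
  · intro n G h
    rw [← dec_spec G h]
    simp only [unbits_bits]
    simp

end Pool.Agent.Results.MP_56c280_lc.PathsAndCycles
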